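import Pool.Agent.H923R2.FP.Stubs

/-! The moments of a reduced free product are determined. -/

set_option autoImplicit false

namespace Pool.Agent.H923R2.FP.T_MOM

open Pool.Agent.H923R2.FP

section

variable {J : Type} {D : J → Type} [∀ j, CStarAlgebra (D j)] {A : Type} [CStarAlgebra A]

/-- product of a word -/
def W (e : ∀ j, D j →⋆ₐ[ℂ] A) (w : List (Σ j, D j)) : A := (w.map fun z => e z.1 z.2).prod

theorem W_nil (e : ∀ j, D j →⋆ₐ[ℂ] A) : W e [] = 1 := rfl

theorem W_cons (e : ∀ j, D j →⋆ₐ[ℂ] A) (z : Σ j, D j) (w : List (Σ j, D j)) :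
    W e (z :: w) = e z.1 z.2 * W e w := by simp [W]

theorem W_append (e : ∀ j, D j →⋆ₐ[ℂ] A) (v w : List (Σ j, D j)) :
    W e (v ++ w) = W e v * W e w := by simp [W]

theorem merge (e : ∀ j, D j →⋆ₐ[ℂ] A) (j : J) (x y : D j) (c r : List (Σ j, D j)) :
    W e ((⟨j, y⟩ :: c).reverse ++ ⟨j, x⟩ :: r) = W e (c.reverse ++ ⟨j, y * x⟩ :: r) := by
  simp only [List.reverse_cons, W_append, W_cons, W_nil, map_mul, mul_one, mul_assoc]

theorem expand (τ : A →ₗ[ℂ] ℂ) (e : ∀ j, D j →⋆ₐ[ℂ] A) (j : J) (x : D j) (u : ℂ)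
    (c r : List (Σ j, D j)) :
    τ (W e (c.reverse ++ ⟨j, x⟩ :: r)) =
      u * τ (W e (c.reverse ++ r)) +
        τ (W e ((⟨j, x - u • (1 : D j)⟩ :: c).reverse ++ r)) := by
  have h : W e (c.reverse ++ ⟨j, x⟩ :: r) = u • W e (c.reverse ++ r) +
      W e ((⟨j, x - u • (1 : D j)⟩ :: c).reverse ++ r) := by
    simp only [List.reverse_cons, W_append, W_cons, W_nil, map_sub, map_smul, map_one, mul_one,
      mul_assoc, mul_sub, sub_mul, smul_mul_assoc, one_mul, mul_smul_comm]
    abel
  rw [h, map_add, map_smul, smul_eq_mul]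

theorem zero_of_alt {t : ∀ j, D j → ℂ} {τ : A →ₗ[ℂ] ℂ} {e : ∀ j, D j →⋆ₐ[ℂ] A}
    (h : RFP D t τ e) (c : List (Σ j, D j)) (hne : c ≠ []) (hc : ∀ z ∈ c, t z.1 z.2 = 0)
    (hch : c.IsChain fun x y => x.1 ≠ y.1) : τ (W e c.reverse) = 0 := by
  have h1 := h.free (c.reverse.map fun z => (z.1, e z.1 z.2)) (by simpa using hne)
    (by
      intro z hz
      obtain ⟨y, hy, rfl⟩ := List.mem_map.1 hz
      refine ⟨⟨y.2, rfl⟩, ?_⟩
      show τ (e y.1 y.2) = 0
      rw [h.tr]
      exact hc y (List.mem_reverse.1 hy))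
    (by
      rw [List.isChain_map]
      refine List.isChain_reverse.2 (hch.imp fun a b hab => ?_)
      exact hab.symm)
  rw [List.map_map] at h1
  exact h1

end

theorem key {J : Type} {D : J → Type} [∀ j, CStarAlgebra (D j)] {t : ∀ j, D j → ℂ}
    {A B : Type} [CStarAlgebra A] [CStarAlgebra B] {τ : A →ₗ[ℂ] ℂ} {τ' : B →ₗ[ℂ] ℂ}
    {e : ∀ j, D j →⋆ₐ[ℂ] A} {e' : ∀ j, D j →⋆ₐ[ℂ] B} (h : RFP D t τ e) (h' : RFP D t τ' e')
    (n : ℕ) : ∀ (r c : List (Σ j, D j)), c.length + r.length = n →
      (∀ z ∈ c, t z.1 z.2 = 0) → (c.IsChain fun x y => x.1 ≠ y.1) →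
      τ (W e (c.reverse ++ r)) = τ' (W e' (c.reverse ++ r)) := by
  classical
  induction n using Nat.strong_induction_on with
  | _ n ihn =>
    intro r
    induction r with
    | nil =>
      intro c _ hc hch
      rw [List.append_nil]
      by_cases hne : c = []
      · rw [hne, List.reverse_nil, W_nil, W_nil, h.fts.one, h'.fts.one]
      · rw [zero_of_alt h c hne hc hch, zero_of_alt h' c hne hc hch]
    | cons z r ihr =>
      intro c hn hc hch
      obtain ⟨j, x⟩ := z
      by_cases hcase : ∃ (y : D j) (c' : List (Σ j, D j)), c = ⟨j, y⟩ :: c'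
      · obtain ⟨y, c', rfl⟩ := hcase
        rw [merge, merge]
        refine ihn (n - 1) ?_ (⟨j, y * x⟩ :: r) c' ?_ (fun z hz => hc z (by simp [hz])) hch.tail
        · simp only [List.length_cons] at hn; omega
        · simp only [List.length_cons] at hn ⊢; omega
      · rw [expand τ e j x (t j x), expand τ' e' j x (t j x)]
        have h1 : τ (W e (c.reverse ++ r)) = τ' (W e' (c.reverse ++ r)) := by
          refine ihn (n - 1) ?_ r c ?_ hc hch
          · simp only [List.length_cons] at hn; omega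
          · simp only [List.length_cons] at hn; omega
        have h0 : t j (x - t j x • (1 : D j)) = 0 := by
          rw [← h.tr, map_sub, map_sub, map_smul, map_smul, map_one, h.fts.one, h.tr]
          simp
        rw [h1]
        congr 1
        have hlen : (⟨j, x - t j x • (1 : D j)⟩ :: c : List (Σ j, D j)).length + r.length = n := by
          simp only [List.length_cons] at hn ⊢; omega
        refine ihr _ hlen ?_ ?_
        · intro z hz
          rcases List.mem_cons.1 hz with hz | hz
          · rw [hz]; exact h0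
          · exact hc z hz
        · cases c with
          | nil => simp
          | cons y c' =>
            refine List.isChain_cons_cons.2 ⟨fun hjy => hcase ?_, hch⟩
            obtain ⟨j', y'⟩ := y
            simp only at hjy
            subst hjy
            exact ⟨y', c', rfl⟩

theorem t_MOM : S_MOM := by
  intro J D _ t A B _ _ τ τ' e e' h h' w
  exact key h h' w.length w [] (by simp) (by simp) (by simp)

end Pool.Agent.H923R2.FP.T_MOM
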